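import Pool.Agent.H90.STE.Stmts

/-!
# The informations are almost nonnegative (random time)
-/

set_option autoImplicit false

namespace Pool.STE

open Finset Real
open Pool.Agent.H49.Ent Pool.Agent.H32.Dense Pool.STK Pool.KA

theorem spc : SPCStmt := by
  intro m J F k r
  have hp := F.isLaw
  have h1 := CH_le_add hp.nonneg (F.X ((r + 1) * k)) (F.X (r * k)) (bT F k r)
  have h2 : CH F.p (F.X ((r + 1) * k)) (fun ω => (F.X (r * k) ω, bT F k r ω)) ≤
      CH F.p (F.X ((r + 1) * k)) (fun ω => (F.X (r * k) ω, F.W ω)) :=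
    CH_mono_cond hp.nonneg (fun ω ω' _ _ h => by
      simp only [bT, Prod.mk.injEq] at h ⊢
      exact ⟨h.1, h.2.2⟩)
  have h3 := CH_le_vec hp.nonneg hp.sum_one (F.X (r * k)) (bT F k r) (fun _ => 3)
    (by
      intro ω ω' _ _ h i
      simp only [bT, Fam.L, Fam.W, Prod.mk.injEq] at h
      have a1 := congrFun h.1.1 i
      have a2 := congrFun h.1.2 i
      have a3 : F.T ω = F.T ω' := h.2.1
      have ht : F.t ω' = F.t ω := by
        unfold Fam.t
        rw [a3]
      have ht0 : 0 ≤ F.t ω := by
        unfold Fam.t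
        positivity
      have ht1 : F.t ω ≤ 1 := by
        unfold Fam.t
        rw [div_le_one (by positivity)]
        have := (F.tim ω).le
        exact_mod_cast this
      unfold fl rd at a1 a2
      unfold Fam.X fl rd Fam.x
      rw [ht]
      simp only
      generalize F.t ω = t at ht0 ht1
      obtain ⟨A, hA⟩ : ∃ A : ℝ, A = 2 ^ (r * k) := ⟨_, rfl⟩
      rw [← hA] at a1 a2 ⊢
      have b1 := Int.floor_le (A * F.u ω i)
      have b2 := Int.lt_floor_add_one (A * F.u ω i)
      have b3 := Int.floor_le (A * F.u ω' i)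
      have b4 := Int.lt_floor_add_one (A * F.u ω' i)
      have b5 := Int.floor_le (A * F.d ω i)
      have b6 := Int.lt_floor_add_one (A * F.d ω i)
      have b7 := Int.floor_le (A * F.d ω' i)
      have b8 := Int.lt_floor_add_one (A * F.d ω' i)
      rw [a1] at b1 b2
      rw [a2] at b5 b6
      have c1 := Int.floor_le (A * (F.u ω i + t * F.d ω i))
      have c2 := Int.lt_floor_add_one (A * (F.u ω i + t * F.d ω i))
      have c3 := Int.floor_le (A * (F.u ω' i + t * F.d ω' i))
      have c4 := Int.lt_floor_add_one (A * (F.u ω' i + t * F.d ω' i))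
      have d1 : |A * F.d ω i - A * F.d ω' i| ≤ 1 := by rw [abs_le]; constructor <;> linarith
      have d2 : |t * (A * F.d ω i - A * F.d ω' i)| ≤ 1 := by
        rw [abs_mul, abs_of_nonneg ht0]
        calc t * |A * F.d ω i - A * F.d ω' i| ≤ 1 * 1 :=
              mul_le_mul ht1 d1 (abs_nonneg _) (by norm_num)
          _ = 1 := one_mul 1
      rw [abs_le] at d2
      have e1 : A * (F.u ω i + t * F.d ω i) - A * (F.u ω' i + t * F.d ω' i) =
        (A * F.u ω i - A * F.u ω' i) + t * (A * F.d ω i - A * F.d ω' i) := by ring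
      push_cast
      rw [abs_le]
      constructor <;> linarith [d2.1, d2.2])
  rw [Ex_const hp.sum_one] at h3
  have h4 : (m : ℝ) * Real.log (2 * 3 + 1) ≤ cc m := by
    unfold cc
    exact mul_le_mul_of_nonneg_left (Real.log_le_log (by norm_num) (by norm_num))
      (Nat.cast_nonneg m)
  unfold iT
  linarith

end Pool.STE
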